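import Pool.Agent.H27.KF.Stm
import Pool.Graph.R_seed8.H353R2.Z2

set_option autoImplicit false

namespace Pool.Agent.H60.KF

open Finset Pool.Agent.K1H88.GT Pool.Agent.H27.KF

/-- the integer of the congruence -/
def FF (q q' : ℕ × ℕ) : ℤ :=
  (q.2 : ℤ) * ((q'.1 : ℤ) * ((q'.1 : ℤ) - q'.2)) - (q'.2 : ℤ) * ((q.1 : ℤ) * ((q.1 : ℤ) - q.2))

lemma dvd_FF {p : ℕ} [Fact p.Prime] {m h m' h' : ℕ} (h1 : h < m) (h2 : m < p) (h1' : h' < m')
    (h2' : m' < p) (he : ((m - h : ℕ) : ZMod p)⁻¹ - ((m : ℕ) : ZMod p)⁻¹ =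
      ((m' - h' : ℕ) : ZMod p)⁻¹ - ((m' : ℕ) : ZMod p)⁻¹) : (p : ℤ) ∣ FF (m, h) (m', h') := by
  have nz : ∀ a : ℕ, 0 < a → a < p → ((a : ℕ) : ZMod p) ≠ 0 := by
    intro a ha hap h0
    rw [ZMod.natCast_eq_zero_iff] at h0
    exact absurd (Nat.le_of_dvd ha h0) (not_le.2 hap)
  have z1 := nz m (by omega) h2
  have z2 := nz (m - h) (by omega) (by omega)
  have z3 := nz m' (by omega) h2'
  have z4 := nz (m' - h') (by omega) (by omega)
  have e1 : ((m - h : ℕ) : ZMod p) = (m : ZMod p) - h := Nat.cast_sub h1.le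
  have e2 : ((m' - h' : ℕ) : ZMod p) = (m' : ZMod p) - h' := Nat.cast_sub h1'.le
  rw [← ZMod.intCast_zmod_eq_zero_iff_dvd]
  unfold FF
  push_cast
  rw [e1, e2] at he
  rw [e1] at z2
  rw [e2] at z4
  field_simp at he
  linear_combination he

lemma main {p A B j : ℕ} (hp : p.Prime) (hjA : j ≤ A) (hBp : B < p) {R : ℝ}
    (hR : ∀ n : ℕ, n ≠ 0 → n ≤ 2 * B ^ 4 → ((Nat.divisors n).card : ℝ) ≤ R)
    (q : ℕ × ℕ) (hq : q ∈ Ioc A B ×ˢ Icc 1 j) :
    (((Ioc A B ×ˢ Icc 1 j).filter (fun q' : ℕ × ℕ =>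
      ((q.1 - q.2 : ℕ) : ZMod p)⁻¹ - ((q.1 : ℕ) : ZMod p)⁻¹ =
        ((q'.1 - q'.2 : ℕ) : ZMod p)⁻¹ - ((q'.1 : ℕ) : ZMod p)⁻¹)).card : ℝ) ≤
      R * (1 + 2 * ((j : ℝ) * (B : ℝ) ^ 2 / p)) := by
  classical
  have : Fact p.Prime := ⟨hp⟩
  have hp0 : 0 < p := hp.pos
  obtain ⟨m, h⟩ := q
  rw [mem_product, mem_Ioc, mem_Icc] at hq
  obtain ⟨⟨hm1, hm2⟩, hh1, hh2⟩ := hq
  simp only at hm1 hm2 hh1 hh2
  obtain ⟨K0, hK0⟩ : ∃ K0 : ℕ, K0 = j * B ^ 2 / p := ⟨_, rfl⟩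
  obtain ⟨c, hc⟩ : ∃ c : ℤ, c = (m : ℤ) * ((m : ℤ) - h) := ⟨_, rfl⟩
  have hhm : (h : ℤ) < m := by exact_mod_cast (by omega : h < m)
  have hh0 : (0 : ℤ) < h := by exact_mod_cast hh1
  have hmB : (m : ℤ) ≤ B := by exact_mod_cast hm2
  have hjB : (j : ℤ) ≤ B := by exact_mod_cast (by omega : j ≤ B)
  have hhj : (h : ℤ) ≤ j := by exact_mod_cast hh2
  have hc0 : 0 < c := by rw [hc]; exact mul_pos (by linarith) (by linarith)
  have hcB : c ≤ (B : ℤ) ^ 2 := by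
    rw [hc, sq]
    exact mul_le_mul hmB (by linarith) (by linarith) (by linarith)
  set T := (Ioc A B ×ˢ Icc 1 j).filter (fun q' : ℕ × ℕ =>
      ((m - h : ℕ) : ZMod p)⁻¹ - ((m : ℕ) : ZMod p)⁻¹ =
        ((q'.1 - q'.2 : ℕ) : ZMod p)⁻¹ - ((q'.1 : ℕ) : ZMod p)⁻¹) with hT
  have hTm : ∀ q' ∈ T, (A < q'.1 ∧ q'.1 ≤ B) ∧ (1 ≤ q'.2 ∧ q'.2 ≤ j) ∧
      (p : ℤ) ∣ FF (m, h) q' := by
    intro q' hq'
    rw [hT, mem_filter, mem_product, mem_Ioc, mem_Icc] at hq'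
    refine ⟨hq'.1.1, hq'.1.2, ?_⟩
    exact dvd_FF (by omega) (by omega) (by omega) (by omega) hq'.2
  have hk : ∀ q' ∈ T, FF (m, h) q' / p * p = FF (m, h) q' := fun q' hq' =>
    Int.ediv_mul_cancel (hTm q' hq').2.2
  have habs : ∀ q' ∈ T, |FF (m, h) q'| ≤ (j : ℤ) * (B : ℤ) ^ 2 := by
    intro q' hq'
    obtain ⟨⟨a1, a2⟩, ⟨a3, a4⟩, -⟩ := hTm q' hq'
    have b1 : (q'.1 : ℤ) ≤ B := by exact_mod_cast a2
    have b2 : (q'.2 : ℤ) < q'.1 := by exact_mod_cast (by omega : q'.2 < q'.1)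
    have b3 : (0 : ℤ) < q'.2 := by exact_mod_cast a3
    have b4 : (q'.2 : ℤ) ≤ j := by exact_mod_cast a4
    have f1 : 0 ≤ (q'.1 : ℤ) * ((q'.1 : ℤ) - q'.2) := mul_nonneg (by linarith) (by linarith)
    have f2 : (q'.1 : ℤ) * ((q'.1 : ℤ) - q'.2) ≤ (B : ℤ) ^ 2 := by
      rw [sq]; exact mul_le_mul b1 (by linarith) (by linarith) (by linarith)
    have g1 : (h : ℤ) * ((q'.1 : ℤ) * ((q'.1 : ℤ) - q'.2)) ≤ j * (B : ℤ) ^ 2 :=
      mul_le_mul hhj f2 f1 (by linarith)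
    have g2 : 0 ≤ (h : ℤ) * ((q'.1 : ℤ) * ((q'.1 : ℤ) - q'.2)) := mul_nonneg hh0.le f1
    have g3 : (q'.2 : ℤ) * c ≤ j * (B : ℤ) ^ 2 := mul_le_mul b4 hcB hc0.le (by linarith)
    have g4 : 0 ≤ (q'.2 : ℤ) * c := mul_nonneg b3.le hc0.le
    have e : FF (m, h) q' = (h : ℤ) * ((q'.1 : ℤ) * ((q'.1 : ℤ) - q'.2)) - (q'.2 : ℤ) * c := by
      rw [hc]; rfl
    rw [e, abs_le]
    constructor <;> linarith
  have hmaps : ∀ q' ∈ T, FF (m, h) q' / p ∈ Icc (-(K0 : ℤ)) K0 := by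
    intro q' hq'
    have h1 := hk q' hq'
    have h2 := habs q' hq'
    rw [← h1, abs_mul, Nat.abs_cast] at h2
    have h3 : (FF (m, h) q' / p).natAbs * p ≤ j * B ^ 2 := by
      have : (((FF (m, h) q' / p).natAbs * p : ℕ) : ℤ) ≤ ((j * B ^ 2 : ℕ) : ℤ) := by
        push_cast
        exact h2
      exact_mod_cast this
    have h4 : (FF (m, h) q' / p).natAbs ≤ K0 := by
      rw [hK0]
      exact (Nat.le_div_iff_mul_le hp0).2 h3
    rw [mem_Icc]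
    omega
  have hR0 : 0 ≤ R := by
    have hB1 : 1 ≤ 2 * B ^ 4 := by
      have : 0 < B := by omega
      have : 0 < B ^ 4 := by positivity
      omega
    exact le_trans (Nat.cast_nonneg _) (hR 1 one_ne_zero hB1)
  have hfib : ∀ k ∈ Icc (-(K0 : ℤ)) K0, (T.filter (fun q' => FF (m, h) q' / p = k)).card ≤ ⌊R⌋₊ := by
    intro k hkI
    by_cases hemp : (T.filter (fun q' => FF (m, h) q' / p = k)) = ∅
    · rw [hemp]; simp
    obtain ⟨q0, hq0⟩ := Finset.nonempty_iff_ne_empty.2 hemp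
    rw [mem_filter] at hq0
    -- the number which is divided
    have hkp : |k * p| ≤ (j : ℤ) * (B : ℤ) ^ 2 := by
      rw [← hq0.2, hk q0 hq0.1]
      exact habs q0 hq0.1
    have hN0 : c ^ 2 - h * k * p ≠ 0 := by
      intro h0
      have h1 : (p : ℤ) ∣ c ^ 2 := ⟨h * k, by linarith⟩
      have h2 : (p : ℤ) ∣ c := (Nat.prime_iff_prime_int.1 hp).dvd_of_dvd_pow h1
      rw [hc] at h2
      rcases (Nat.prime_iff_prime_int.1 hp).dvd_or_dvd h2 with h3 | h3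
      · have := Int.le_of_dvd (by linarith) h3
        have : (B : ℤ) < p := by exact_mod_cast hBp
        linarith
      · have := Int.le_of_dvd (by linarith) h3
        have : (B : ℤ) < p := by exact_mod_cast hBp
        linarith
    have hNb : |c ^ 2 - h * k * p| ≤ 2 * (B : ℤ) ^ 4 := by
      have e1 : |c ^ 2 - h * k * p| ≤ |c ^ 2| + |h * k * p| := abs_sub _ _
      have e2 : |c ^ 2| ≤ (B : ℤ) ^ 4 := by
        rw [abs_of_nonneg (by positivity)]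
        calc c ^ 2 ≤ ((B : ℤ) ^ 2) ^ 2 := pow_le_pow_left₀ hc0.le hcB 2
          _ = (B : ℤ) ^ 4 := by ring
      have e3 : |(h : ℤ) * k * p| ≤ (B : ℤ) ^ 4 := by
        rw [mul_assoc, abs_mul, abs_of_pos hh0]
        calc (h : ℤ) * |k * p| ≤ B * (B * (B : ℤ) ^ 2) := by
              refine mul_le_mul (by linarith) (hkp.trans ?_) (abs_nonneg _) (by positivity)
              gcongr
          _ = (B : ℤ) ^ 4 := by ring
      linarith
    have hcard : ((Nat.divisors (c ^ 2 - h * k * p).natAbs).card : ℝ) ≤ R := by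
      refine hR _ (Int.natAbs_ne_zero.2 hN0) ?_
      have : (((c ^ 2 - h * k * p).natAbs : ℕ) : ℤ) ≤ ((2 * B ^ 4 : ℕ) : ℤ) := by
        push_cast
        exact hNb
      exact_mod_cast this
    refine Nat.le_floor (le_trans ?_ hcard)
    have hrel : ∀ q' ∈ T.filter (fun q' => FF (m, h) q' / p = k),
        (q'.2 : ℤ) * ((h : ℤ) * q'.1 + c) = h * (q'.1 : ℤ) ^ 2 - k * p := by
      intro q' hq'
      rw [mem_filter] at hq'
      have h1 := hk q' hq'.1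
      rw [hq'.2] at h1
      have e : FF (m, h) q' = (h : ℤ) * ((q'.1 : ℤ) * ((q'.1 : ℤ) - q'.2)) - (q'.2 : ℤ) * c := by
        rw [hc]; rfl
      rw [e] at h1
      linarith
    have hinj := card_le_card_of_injOn (s := T.filter (fun q' => FF (m, h) q' / p = k))
      (t := Nat.divisors (c ^ 2 - h * k * p).natAbs)
      (fun q' : ℕ × ℕ => ((h : ℤ) * q'.1 + c).natAbs) (by
        intro q' hq'
        have hr := hrel q' hq'
        rw [mem_coe, Nat.mem_divisors]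
        refine ⟨?_, Int.natAbs_ne_zero.2 hN0⟩
        rw [Int.natAbs_dvd_natAbs]
        -- h * h2 * w = (w - c)^2 - h k p
        refine ⟨(h : ℤ) * q'.2 - ((h : ℤ) * q'.1 + c) + 2 * c, ?_⟩
        linear_combination (-(h : ℤ)) * hr) (by
        intro q1 hq1 q2 hq2 he
        have hr1 := hrel q1 hq1
        have hr2 := hrel q2 hq2
        have w1 : 0 < (h : ℤ) * q1.1 + c := by positivity
        have w2 : 0 < (h : ℤ) * q2.1 + c := by positivity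
        have he' : (h : ℤ) * q1.1 + c = (h : ℤ) * q2.1 + c := by
          have : (((h : ℤ) * q1.1 + c).natAbs : ℤ) = (((h : ℤ) * q2.1 + c).natAbs : ℤ) := by
            exact_mod_cast he
          rwa [Int.natCast_natAbs, Int.natCast_natAbs, abs_of_pos w1, abs_of_pos w2] at this
        have h3 : (q1.1 : ℤ) = q2.1 := mul_left_cancel₀ hh0.ne' (by linarith)
        rw [h3] at hr1
        have h4 : (q1.2 : ℤ) = q2.2 := mul_right_cancel₀ w2.ne' (hr1.trans hr2.symm)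
        exact Prod.ext (by exact_mod_cast h3) (by exact_mod_cast h4))
    exact_mod_cast hinj
  have hfin := card_le_mul_card_image_of_maps_to (f := fun q' => FF (m, h) q' / p) hmaps ⌊R⌋₊ hfib
  have hIcc : (Icc (-(K0 : ℤ)) K0).card = 2 * K0 + 1 := by
    rw [Int.card_Icc]
    omega
  rw [hIcc] at hfin
  have hK : (K0 : ℝ) ≤ (j : ℝ) * (B : ℝ) ^ 2 / p := by
    rw [hK0]
    have := @Nat.cast_div_le ℝ _ _ _ (j * B ^ 2) p
    push_cast at this
    exact this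
  calc (T.card : ℝ) ≤ ((⌊R⌋₊ * (2 * K0 + 1) : ℕ) : ℝ) := by exact_mod_cast hfin
    _ = (⌊R⌋₊ : ℝ) * (1 + 2 * (K0 : ℝ)) := by push_cast; ring
    _ ≤ R * (1 + 2 * ((j : ℝ) * (B : ℝ) ^ 2 / p)) := by
        refine mul_le_mul (Nat.floor_le hR0) (by linarith) (by positivity) hR0

theorem t_CNT : S_CNT := by
  classical
  intro η hη
  obtain ⟨C2, hC2, hdiv⟩ := H353.divisor_bound_real (η / 4) (by positivity)
  obtain ⟨E, hE⟩ : ∃ E : ℝ, E = (2 : ℝ) ^ (η / 4) := ⟨_, rfl⟩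
  have hE0 : 0 ≤ E := by rw [hE]; positivity
  refine ⟨2 * (C2 * E), by positivity, fun p A B j hp hj hjA hBp => ?_⟩
  have hRHS : 0 ≤ 2 * (C2 * E) * (B : ℝ) ^ (1 + η) * j * (1 + (j : ℝ) * (B : ℝ) ^ 2 / p) := by
    positivity
  rcases le_or_gt B A with hAB | hAB
  · have : solK p A B j = ∅ := by
      unfold solK quad
      rw [Ioc_eq_empty (by omega)]
      simp
    rw [this]
    simpa using hRHS
  have hB0 : 0 < B := by omega
  have hB0r : (0 : ℝ) < B := by exact_mod_cast hB0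
  have hR : ∀ n : ℕ, n ≠ 0 → n ≤ 2 * B ^ 4 →
      ((Nat.divisors n).card : ℝ) ≤ C2 * (E * (B : ℝ) ^ η) := by
    intro n hn hnB
    refine (hdiv n hn).trans (mul_le_mul_of_nonneg_left ?_ hC2.le)
    calc (n : ℝ) ^ (η / 4) ≤ (2 * (B : ℝ) ^ 4) ^ (η / 4) :=
          Real.rpow_le_rpow (Nat.cast_nonneg _) (by exact_mod_cast hnB) (by positivity)
      _ = (2 : ℝ) ^ (η / 4) * ((B : ℝ) ^ 4) ^ (η / 4) :=
          Real.mul_rpow (by positivity) (by positivity)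
      _ = E * (B : ℝ) ^ η := by
          rw [hE]
          congr 1
          rw [← Real.rpow_natCast, ← Real.rpow_mul hB0r.le]
          congr 1
          push_cast
          ring
  have hcard : ((solK p A B j).card : ℝ) = ∑ q ∈ Ioc A B ×ˢ Icc 1 j,
      (((Ioc A B ×ˢ Icc 1 j).filter (fun q' : ℕ × ℕ =>
      ((q.1 - q.2 : ℕ) : ZMod p)⁻¹ - ((q.1 : ℕ) : ZMod p)⁻¹ =
        ((q'.1 - q'.2 : ℕ) : ZMod p)⁻¹ - ((q'.1 : ℕ) : ZMod p)⁻¹)).card : ℝ) := by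
    unfold solK quad
    rw [card_filter, sum_product]
    push_cast
    refine sum_congr rfl fun q _ => ?_
    rw [card_filter]
    push_cast
    rfl
  rw [hcard]
  refine (sum_le_sum fun q hq => main hp hjA hBp hR q hq).trans ?_
  rw [sum_const, nsmul_eq_mul, card_product, Nat.card_Ioc, Nat.card_Icc, Nat.add_sub_cancel]
  have hpow : (B : ℝ) ^ (1 + η) = B * (B : ℝ) ^ η := by
    rw [Real.rpow_add hB0r, Real.rpow_one]
  have h1 : (((B - A) * j : ℕ) : ℝ) ≤ (B : ℝ) * j := by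
    exact_mod_cast Nat.mul_le_mul_right _ (Nat.sub_le _ _)
  have hx : 0 ≤ (j : ℝ) * (B : ℝ) ^ 2 / p := by positivity
  calc (((B - A) * j : ℕ) : ℝ) * (C2 * (E * (B : ℝ) ^ η) * (1 + 2 * ((j : ℝ) * (B : ℝ) ^ 2 / p)))
      ≤ ((B : ℝ) * j) * (C2 * (E * (B : ℝ) ^ η) * (2 * (1 + (j : ℝ) * (B : ℝ) ^ 2 / p))) := by
        refine mul_le_mul h1 ?_ (by positivity) (by positivity)
        refine mul_le_mul_of_nonneg_left (by linarith) (by positivity)
    _ = 2 * (C2 * E) * (B : ℝ) ^ (1 + η) * j * (1 + (j : ℝ) * (B : ℝ) ^ 2 / p) := by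
        rw [hpow]; ring

end Pool.Agent.H60.KF
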